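import Pool.Agent.U378.TF.R2.Tab
import Pool.Agent.U378.TF.Bm

/-! Checks of the leaves. -/

set_option autoImplicit false
set_option maxRecDepth 100000

namespace Pool.Agent.U378.TF.R2

open Pool.Agent.U378.TF

theorem lf29 : nestP 29 Bm.b29 (leafB TY PA T X) = true := by decide +kernel

theorem lf55 : nestP 55 Bm.b55 (leafB TY PA T X) = true := by decide +kernel

theorem lf119 : nestP 119 Bm.b119 (leafB TY PA T X) = true := by decide +kernel

theorem lf46 : nestP 46 Bm.b46 (leafB TY PA T X) = true := by decide +kernel

theorem lf110 : nestP 110 Bm.b110 (leafB TY PA T X) = true := by decide +kernel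

theorem lf59 : nestP 59 Bm.b59 (leafB TY PA T X) = true := by decide +kernel

theorem lf123 : nestP 123 Bm.b123 (leafB TY PA T X) = true := by decide +kernel

theorem lf63 : nestP 63 Bm.b63 (leafB TY PA T X) = true := by decide +kernel

theorem lf127 : nestP 127 Bm.b127 (leafB TY PA T X) = true := by decide +kernel

end Pool.Agent.U378.TF.R2
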