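import Pool.Agent.U378.TF.R2.Tab
import Pool.Agent.U378.TF.Bm

/-! Checks of the leaves. -/

set_option autoImplicit false
set_option maxRecDepth 100000

namespace Pool.Agent.U378.TF.R2

open Pool.Agent.U378.TF

theorem lf82 : nestP 82 Bm.b82 (leafB TY PA T X) = true := by decide +kernel

theorem lf86 : nestP 86 Bm.b86 (leafB TY PA T X) = true := by decide +kernel

theorem lf21 : nestP 21 Bm.b21 (leafB TY PA T X) = true := by decide +kernel

end Pool.Agent.U378.TF.R2
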