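import Pool.Agent.U378.TF.R2.Tab
import Pool.Agent.U378.TF.Bm

/-! Checks of the leaves. -/

set_option autoImplicit false
set_option maxRecDepth 100000

namespace Pool.Agent.U378.TF.R2

open Pool.Agent.U378.TF

theorem lf85 : nestP 85 Bm.b85 (leafB TY PA T X) = true := by decide +kernel

theorem lf34 : nestP 34 Bm.b34 (leafB TY PA T X) = true := by decide +kernel

theorem lf98 : nestP 98 Bm.b98 (leafB TY PA T X) = true := by decide +kernel

end Pool.Agent.U378.TF.R2
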