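import Pool.Agent.U378.TF.R2.Tab
import Pool.Agent.U378.TF.Bm

/-! Checks of the leaves. -/

set_option autoImplicit false
set_option maxRecDepth 100000

namespace Pool.Agent.U378.TF.R2

open Pool.Agent.U378.TF

theorem lf23 : nestP 23 Bm.b23 (leafB TY PA T X) = true := by decide +kernel

theorem lf27 : nestP 27 Bm.b27 (leafB TY PA T X) = true := by decide +kernel

theorem lf31 : nestP 31 Bm.b31 (leafB TY PA T X) = true := by decide +kernel

theorem lf35 : nestP 35 Bm.b35 (leafB TY PA T X) = true := by decide +kernel

theorem lf39 : nestP 39 Bm.b39 (leafB TY PA T X) = true := by decide +kernel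

theorem lf43 : nestP 43 Bm.b43 (leafB TY PA T X) = true := by decide +kernel

theorem lf47 : nestP 47 Bm.b47 (leafB TY PA T X) = true := by decide +kernel

theorem lf83 : nestP 83 Bm.b83 (leafB TY PA T X) = true := by decide +kernel

end Pool.Agent.U378.TF.R2
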