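import Pool.Agent.U378.TF.R2.G0
import Pool.Agent.U378.TF.R2.G1
import Pool.Agent.U378.TF.R2.G2
import Pool.Agent.U378.TF.R2.G3
import Pool.Agent.U378.TF.R2.G4
import Pool.Agent.U378.TF.R2.G5
import Pool.Agent.U378.TF.R2.G6
import Pool.Agent.U378.TF.R2.G7
import Pool.Agent.U378.TF.R2.G8
import Pool.Agent.U378.TF.R2.G9
import Pool.Agent.U378.TF.R2.G10
import Pool.Agent.U378.TF.R2.P0
import Pool.Agent.U378.TF.R2.P1
import Pool.Agent.U378.TF.R2.P2
import Pool.Agent.U378.TF.R2.P3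
import Pool.Agent.U378.TF.R2.P4
import Pool.Agent.U378.TF.R2.P5
import Pool.Agent.U378.TF.R2.P6
import Pool.Agent.U378.TF.R2.P7
import Pool.Agent.U378.TF.R2.P8
import Pool.Agent.U378.TF.R2.P9
import Pool.Agent.U378.TF.R2.P10
import Pool.Agent.U378.TF.R2.P11
import Pool.Agent.U378.TF.Sum

/-! The certificate. -/

set_option autoImplicit false
set_option maxRecDepth 100000

namespace Pool.Agent.U378.TF.R2

open Pool.Agent.U378.TF

open Pool.Agent.U378.TF.Bm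

def O (t : ℕ) : ℕ := 8388608 + 900 * (if t ∈ [2, 3, 4, 5] then 1 else 0)

theorem A4b_zero (k : ℕ) (f : ℕ → ℕ → ℕ → Bool) : A4b k 0 f = true := by
  unfold A4b
  simp only [sb_zero]
  rfl

theorem nestP_zero (p : ℕ) (F : F20) : nestP p 0 F = true := by
  unfold nestP nest
  exact A4b_zero _ _

theorem leaves : ∀ p < 256, ∃ BM, lmP p BM = true ∧ nestP p BM (leafB TY PA T X) = true := by
  intro p hp
  by_cases h0 : p ∈ [8, 9, 10, 11, 12, 13, 14, 15, 16, 20, 24, 28, 32, 33, 36, 37, 40, 41, 44, 45, 48, 49, 50, 52, 53, 54, 56, 57, 58, 60, 61, 62, 64, 65, 66, 67, 68, 69, 70, 71, 72, 73, 74, 75, 76, 77, 78, 79, 80, 84, 88, 89, 90, 91, 92, 93, 94, 95, 96, 97, 100, 101, 104, 105, 108, 109, 112, 113, 114, 116, 117, 118, 120, 121, 122, 124, 125, 126, 128, 129, 130, 131, 132, 133, 134, 135, 136, 137, 138, 139, 140, 141, 142, 143, 144, 145, 146, 147, 148, 149, 150, 151, 152, 153, 154, 155, 156, 157,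 158, 159, 160, 161, 162, 163, 164, 165, 166, 167, 168, 169, 170, 171, 172, 173, 174, 175, 176, 177, 178, 179, 180, 181, 182, 183, 184, 185, 186, 187, 188, 189, 190, 191, 192, 193, 194, 195, 196, 197, 198, 199, 200, 201, 202, 203, 204, 205, 206, 207, 208, 209, 210, 211, 212, 213, 214, 215, 216, 217, 218, 219, 220, 221, 222, 223, 224, 225, 226, 227, 228, 229, 230, 231, 232, 233, 234, 235, 236, 237, 238, 239, 240, 241, 242, 243, 244, 245, 246, 247, 248, 249, 250, 251, 252, 253, 254, 255]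
  · exact ⟨0, lm0s p h0, nestP_zero p _⟩
  have h1 : p ∈ [0, 1, 2, 3, 4, 5, 6, 7, 17, 18, 19, 21, 22, 23, 25, 26, 27, 29, 30, 31, 34, 35, 38, 39, 42, 43, 46, 47, 51, 55, 59, 63, 81, 82, 83, 85, 86, 87, 98, 99, 102, 103, 106, 107, 110, 111, 115, 119, 123, 127] := by
    revert h0
    revert p
    decide +kernel
  fin_cases h1
  · exact ⟨_, lm0, lf0⟩
  · exact ⟨_, lm1, lf1⟩
  · exact ⟨_, lm2, lf2⟩
  · exact ⟨_, lm3, lf3⟩
  · exact ⟨_, lm4, lf4⟩
  · exact ⟨_, lm5, lf5⟩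
  · exact ⟨_, lm6, lf6⟩
  · exact ⟨_, lm7, lf7⟩
  · exact ⟨_, lm17, lf17⟩
  · exact ⟨_, lm18, lf18⟩
  · exact ⟨_, lm19, lf19⟩
  · exact ⟨_, lm21, lf21⟩
  · exact ⟨_, lm22, lf22⟩
  · exact ⟨_, lm23, lf23⟩
  · exact ⟨_, lm25, lf25⟩
  · exact ⟨_, lm26, lf26⟩
  · exact ⟨_, lm27, lf27⟩
  · exact ⟨_, lm29, lf29⟩
  · exact ⟨_, lm30, lf30⟩
  · exact ⟨_, lm31, lf31⟩
  · exact ⟨_, lm34, lf34⟩
  · exact ⟨_, lm35, lf35⟩
  · exact ⟨_, lm38, lf38⟩
  · exact ⟨_, lm39, lf39⟩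
  · exact ⟨_, lm42, lf42⟩
  · exact ⟨_, lm43, lf43⟩
  · exact ⟨_, lm46, lf46⟩
  · exact ⟨_, lm47, lf47⟩
  · exact ⟨_, lm51, lf51⟩
  · exact ⟨_, lm55, lf55⟩
  · exact ⟨_, lm59, lf59⟩
  · exact ⟨_, lm63, lf63⟩
  · exact ⟨_, lm81, lf81⟩
  · exact ⟨_, lm82, lf82⟩
  · exact ⟨_, lm83, lf83⟩
  · exact ⟨_, lm85, lf85⟩
  · exact ⟨_, lm86, lf86⟩
  · exact ⟨_, lm87, lf87⟩
  · exact ⟨_, lm98, lf98⟩
  · exact ⟨_, lm99, lf99⟩
  · exact ⟨_, lm102, lf102⟩
  · exact ⟨_, lm103, lf103⟩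
  · exact ⟨_, lm106, lf106⟩
  · exact ⟨_, lm107, lf107⟩
  · exact ⟨_, lm110, lf110⟩
  · exact ⟨_, lm111, lf111⟩
  · exact ⟨_, lm115, lf115⟩
  · exact ⟨_, lm119, lf119⟩
  · exact ⟨_, lm123, lf123⟩
  · exact ⟨_, lm127, lf127⟩

theorem cert : Cert TY PA AC AF 12 T O X where
  tab := tab
  sym := by
    intro t ht
    interval_cases t
    · exact sym0
    · exact sym1
    · exact sym2
    · exact sym3
    · exact sym4
    · exact sym5
    · exact sym6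
    · exact sym7
    · exact sym8
    · exact sym9
    · exact sym10
    · exact sym11
  leaf := leaves
  psd := by
    intro t ht
    interval_cases t
    · exact psd0
    · exact psd1
    · exact psd2
    · exact psd3
    · exact psd4
    · exact psd5
    · exact psd6
    · exact psd7
    · exact psd8
    · exact psd9
    · exact psd10
    · exact psd11

end Pool.Agent.U378.TF.R2
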