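import Pool.Agent.U378.TF.R2.Tab
import Pool.Agent.U378.TF.Bm

/-! Checks of the leaves. -/

set_option autoImplicit false
set_option maxRecDepth 100000

namespace Pool.Agent.U378.TF.R2

open Pool.Agent.U378.TF

theorem lf0 : nestP 0 Bm.b0 (leafB TY PA T X) = true := by decide +kernel

theorem lf1 : nestP 1 Bm.b1 (leafB TY PA T X) = true := by decide +kernel

end Pool.Agent.U378.TF.R2
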